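import Pool.Agent.W680.WH.Stm

/-!
# Project WHH: growth characterisation of the first summand (WHH-GRO)
-/

set_option autoImplicit false

open scoped ComplexConjugate InnerProductSpace
open ContinuousLinearMap Filter

namespace Pool.Agent.W585.WH.GRO

open Pool.Agent.W680.WH

/-- the coefficients of `X` -/
noncomputable def xj (j : ℤ) : ℝ := -((16 * (j : ℝ) + 8) / ((4 * (j : ℝ) + 1) * (4 * (j : ℝ) + 3)))

theorem n1 (n : ℤ) : (4 * (n : ℝ) + 1) ≠ 0 := by
  have : (4 * n + 1 : ℤ) ≠ 0 := by omega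
  exact_mod_cast this

theorem n3 (n : ℤ) : (4 * (n : ℝ) + 3) ≠ 0 := by
  have : (4 * n + 3 : ℤ) ≠ 0 := by omega
  exact_mod_cast this

theorem c1 (n : ℤ) : (4 * (n : ℂ) + 1) ≠ 0 := by
  have : (4 * n + 1 : ℤ) ≠ 0 := by omega
  exact_mod_cast this

theorem c3 (n : ℤ) : (4 * (n : ℂ) + 3) ≠ 0 := by
  have : (4 * n + 3 : ℤ) ≠ 0 := by omega
  exact_mod_cast this

theorem m1 (n : ℤ) : (4 * (n : ℂ) - 1) ≠ 0 := by
  have : (4 * n - 1 : ℤ) ≠ 0 := by omega
  exact_mod_cast this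

theorem m3 (n : ℤ) : (4 * (n : ℂ) - 3) ≠ 0 := by
  have : (4 * n - 3 : ℤ) ≠ 0 := by omega
  exact_mod_cast this

section

variable (hA : S_OPA) (hC : S_OPC)

include hC in
theorem co_sub (f g : E) (n : ℤ) : co (f - g) n = co f n - co g n := by
  obtain ⟨-, -, -, -, ha, hs, -⟩ := hC
  have e : f - g = f + (-1 : ℂ) • g := by
    rw [neg_one_smul, sub_eq_add_neg]
  rw [e, ha, hs]
  ring

include hA hC in
theorem co_Zs (f : E) (n : ℤ) :
    co (Zs f) n = ((4 * (n : ℂ) + 3) / (4 * (n : ℂ) + 1)) * co f (n + 1) := by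
  obtain ⟨⟨-, -, h1, -⟩, -⟩ := hA
  obtain ⟨-, -, -, h2, -⟩ := hC
  have e : f = Z2 (Zs f) := by
    have := congrArg (fun A : E →L[ℂ] E => A f) h1
    simpa using this.symm
  have e2 := h2 (Zs f) (n + 1)
  rw [← e] at e2
  have e3 : n + 1 - 1 = n := by ring
  rw [e3] at e2
  rw [e2]
  have a1 : (4 * ((n + 1 : ℤ) : ℂ) - 3) = 4 * (n : ℂ) + 1 := by push_cast; ring
  have a3 : (4 * ((n + 1 : ℤ) : ℂ) - 1) = 4 * (n : ℂ) + 3 := by push_cast; ring
  rw [a1, a3]
  have := c1 n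
  have := c3 n
  field_simp

include hC in
theorem co_Q (f : E) (n : ℤ) : co (Q f) n = (2 / (4 * (n : ℂ) - 1)) * co f (n - 1) := by
  have e : Q f = Z f - Z2 f := by simp [Q]
  rw [e, co_sub hC]
  obtain ⟨-, h1, -, h2, -⟩ := hC
  rw [h1, h2]
  have := m1 n
  field_simp
  ring

include hA hC in
theorem co_X (f : E) (n : ℤ) : co (X f) n = (xj (n - 1) : ℂ) * co f (n - 1) := by
  have e : X f = (-1 : ℂ) • ((2 : ℂ) • Q f + Q (Zs (Q f))) := by
    simp [X]
    exact add_comm _ _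
  obtain ⟨-, -, -, -, ha, hs, -⟩ := id hC
  rw [e, hs, ha, hs, co_Q hC, co_Q hC, co_Zs hA hC, co_Q hC]
  have e3 : n - 1 + 1 = n := by ring
  have e4 : n - 1 + 1 - 1 = n - 1 := by ring
  rw [e4, e3, xj]
  have h1 := m1 n
  have h3 := m3 n
  have a1 : (4 * ((n - 1 : ℤ) : ℂ) + 3) = 4 * (n : ℂ) - 1 := by push_cast; ring
  have a3 : (4 * ((n - 1 : ℤ) : ℂ) + 1) = 4 * (n : ℂ) - 3 := by push_cast; ring
  have a2 : (16 * ((n - 1 : ℤ) : ℂ) + 8) = 16 * (n : ℂ) - 8 := by push_cast; ring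
  rw [a1, a3]
  push_cast
  have b1 : (4 * ((n : ℂ) - 1) + 3) = 4 * (n : ℂ) - 1 := by ring
  have b3 : (4 * ((n : ℂ) - 1) + 1) = 4 * (n : ℂ) - 3 := by ring
  rw [b1, b3]
  field_simp
  ring

/-- the sums of the coefficients -/
noncomputable def sN (m : ℤ) (N : ℕ) : ℝ := ∑ i ∈ Finset.range N, xj (m + i)

theorem T_fst (y : E2) : (T y).fst = Z y.fst + X y.snd := rfl

theorem T_snd (y : E2) : (T y).snd = Z y.snd := rfl

include hA hC in
theorem co_pow (x : E2) (N : ℕ) : ∀ n : ℤ,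
    co ((T ^ N) x).snd n = co x.snd (n - N) ∧
    co ((T ^ N) x).fst n = co x.fst (n - N) + (sN (n - N) N : ℂ) * co x.snd (n - N) := by
  induction N with
  | zero =>
    intro n
    simp [sN]
  | succ N ih =>
    intro n
    have e : (T ^ (N + 1)) x = T ((T ^ N) x) := by
      rw [pow_succ']
      rfl
    rw [e, T_fst, T_snd]
    obtain ⟨i1, i2⟩ := ih (n - 1)
    obtain ⟨-, hz, -, -, ha, -⟩ := id hC
    rw [ha, hz, hz, co_X hA hC, i1, i2]
    have e1 : n - 1 - (N : ℤ) = n - ((N + 1 : ℕ) : ℤ) := by push_cast; ring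
    have e2 : sN (n - ((N + 1 : ℕ) : ℤ)) (N + 1) =
        sN (n - ((N + 1 : ℕ) : ℤ)) N + xj (n - 1) := by
      rw [sN, Finset.sum_range_succ, ← sN]
      congr 2
      push_cast
      ring
    rw [e1, e2]
    refine ⟨rfl, ?_⟩
    push_cast
    ring

theorem xj_eq (j : ℤ) : -xj j = 2 / (4 * (j : ℝ) + 1) + 2 / (4 * (j : ℝ) + 3) := by
  rw [xj, neg_neg, div_add_div _ _ (n1 j) (n3 j)]
  congr 1
  ring

theorem xj_le (j : ℤ) (K : ℝ) (hj : 0 ≤ j) (hK : (j : ℝ) + 1 ≤ K) : 1 / K ≤ -xj j := by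
  have h0 : (0 : ℝ) ≤ j := by exact_mod_cast hj
  rw [xj_eq]
  have h1 : 1 / K ≤ 1 / ((j : ℝ) + 1) := one_div_le_one_div_of_le (by linarith) hK
  have h2 : 1 / ((j : ℝ) + 1) ≤ 4 / (4 * (j : ℝ) + 3) := by
    rw [div_le_div_iff₀ (by linarith) (by linarith)]
    linarith
  have h3 : 2 / (4 * (j : ℝ) + 3) ≤ 2 / (4 * (j : ℝ) + 1) :=
    div_le_div_of_nonneg_left (by norm_num) (by linarith) (by linarith)
  have h4 : 4 / (4 * (j : ℝ) + 3) = 2 / (4 * (j : ℝ) + 3) + 2 / (4 * (j : ℝ) + 3) := by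
    rw [← add_div]
    norm_num
  linarith

theorem sN_tendsto (m : ℤ) : Tendsto (fun N : ℕ => -sN m N) atTop atTop := by
  obtain ⟨K, hK⟩ : ∃ K : ℕ, K = m.natAbs := ⟨_, rfl⟩
  have hns : ¬ Summable fun i : ℕ => (1 : ℝ) / ((i + (2 * K + 1) : ℕ) : ℝ) := by
    rw [summable_nat_add_iff (f := fun i : ℕ => (1 : ℝ) / (i : ℝ)) (2 * K + 1)]
    exact Real.not_summable_one_div_natCast
  have h1 := (not_summable_iff_tendsto_nat_atTop_of_nonneg (fun i => by positivity)).1 hns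
  have h2 : ∀ N : ℕ, ∑ i ∈ Finset.range N, (1 : ℝ) / ((i + (2 * K + 1) : ℕ) : ℝ) ≤
      -sN m (N + K) + sN m K := by
    intro N
    have e : -sN m (N + K) + sN m K = ∑ i ∈ Finset.range N, -xj (m + ((K + i : ℕ) : ℤ)) := by
      rw [sN, sN, add_comm N K, Finset.sum_range_add, Finset.sum_neg_distrib]
      ring
    rw [e]
    refine Finset.sum_le_sum fun i _ => xj_le _ _ (by push_cast; omega) ?_
    have hm : (m : ℝ) ≤ K := by
      have : m ≤ (K : ℤ) := by omega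
      exact_mod_cast this
    push_cast
    linarith
  have h3 : Tendsto (fun N : ℕ => -sN m (N + K) + sN m K) atTop atTop :=
    tendsto_atTop_mono h2 h1
  have h4 : Tendsto (fun N : ℕ => -sN m (N + K)) atTop atTop := by
    have := tendsto_atTop_add_const_right atTop (-sN m K) h3
    refine this.congr fun N => by ring
  exact (tendsto_add_atTop_iff_nat (f := fun N : ℕ => -sN m N) K).1 h4

theorem nsq (x : E2) : ‖x‖ ^ 2 = ‖x.fst‖ ^ 2 + ‖x.snd‖ ^ 2 := WithLp.prod_norm_sq_eq_of_L2 x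

end

/-- WHH-GRO -/
theorem gro (hO : S_OM) (hA : S_OPA) (hC : S_OPC) : S_GRO := by
  intro x
  obtain ⟨o1, o2, o3, o4, o5⟩ := hO
  obtain ⟨k1, k2, k3, k4, k5, k6, k7, k8, k9, -⟩ := id hC
  constructor
  · intro hx
    have hx0 : ∀ n, co x.snd n = 0 := by
      intro n
      rw [hx]
      simp [co]
    refine ⟨‖x.fst‖ ^ 2, fun N => ?_⟩
    have hs : ‖((T ^ N) x).snd‖ ^ 2 = 0 := by
      rw [k7]
      have : ∀ n, om n * ‖co ((T ^ N) x).snd n‖ ^ 2 = 0 := by
        intro n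
        rw [(co_pow hA hC x N n).1, hx0]
        simp
      simp only [this, tsum_zero]
    rw [nsq, hs, add_zero, k7, k7 x.fst, ← tsum_mul_right]
    have hsh : Summable fun n : ℤ => om (n - N) * ‖co x.fst (n - N)‖ ^ 2 * om N :=
      ((k8 x.fst).comp_injective (i := fun n : ℤ => n - N)
        (fun a b h => by simpa using h)).mul_right _
    have e : ∑' n : ℤ, om n * ‖co x.fst n‖ ^ 2 * om N =
        ∑' n : ℤ, om (n - N) * ‖co x.fst (n - N)‖ ^ 2 * om N :=
      ((Equiv.subRight (N : ℤ)).tsum_eq (fun n => om n * ‖co x.fst n‖ ^ 2 * om N)).symm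
    rw [e]
    refine (k8 _).tsum_le_tsum (fun n => ?_) hsh
    rw [(co_pow hA hC x N n).2, hx0, mul_zero, add_zero]
    have h1 : om n ≤ om (n - N) * om N := by
      have := o3 (n - N) N
      simpa using this
    calc om n * ‖co x.fst (n - N)‖ ^ 2 ≤ (om (n - N) * om N) * ‖co x.fst (n - N)‖ ^ 2 :=
          mul_le_mul_of_nonneg_right h1 (sq_nonneg _)
      _ = om (n - N) * ‖co x.fst (n - N)‖ ^ 2 * om N := by ring
  · rintro ⟨C, hCb⟩
    by_contra hne
    have hm : ∃ m, co x.snd m ≠ 0 := by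
      by_contra hcon
      push Not at hcon
      exact hne (k9 _ _ fun n => by rw [hcon n]; simp [co])
    obtain ⟨m, hm⟩ := hm
    have hpos : 0 < ‖co x.snd m‖ := norm_pos_iff.2 hm
    have h1 : Tendsto (fun N : ℕ => -sN m N * ‖co x.snd m‖ - ‖co x.fst m‖) atTop atTop :=
      tendsto_atTop_add_const_right _ _ ((sN_tendsto m).atTop_mul_const hpos)
    have h2 : Tendsto (fun N : ℕ => ‖co x.fst m + (sN m N : ℂ) * co x.snd m‖) atTop atTop := by
      refine tendsto_atTop_mono (fun N => ?_) h1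
      have e1 : ‖(sN m N : ℂ) * co x.snd m‖ = |sN m N| * ‖co x.snd m‖ := by
        rw [norm_mul, Complex.norm_real, Real.norm_eq_abs]
      have e2 : ‖(sN m N : ℂ) * co x.snd m‖ - ‖co x.fst m‖ ≤
          ‖co x.fst m + (sN m N : ℂ) * co x.snd m‖ := by
        have := norm_sub_le (co x.fst m + (sN m N : ℂ) * co x.snd m) (co x.fst m)
        rw [add_sub_cancel_left] at this
        linarith
      rw [e1] at e2
      have e3 : -sN m N * ‖co x.snd m‖ ≤ |sN m N| * ‖co x.snd m‖ :=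
        mul_le_mul_of_nonneg_right (neg_le_abs _) hpos.le
      linarith
    have h3 : Tendsto (fun N : ℕ => ‖co x.fst m + (sN m N : ℂ) * co x.snd m‖ ^ 2) atTop atTop :=
      (tendsto_pow_atTop two_ne_zero).comp h2
    have h4 : Tendsto (fun N : ℕ => om (m + N) / om N *
        ‖co x.fst m + (sN m N : ℂ) * co x.snd m‖ ^ 2) atTop atTop :=
      (o5 m).pos_mul_atTop one_pos h3
    obtain ⟨N, hN⟩ := (h4.eventually_ge_atTop (C + 1)).exists
    have hoN : 0 < om N := om_pos _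
    have h5 := hCb N
    rw [nsq, k7] at h5
    have h6 : om (m + N) * ‖co ((T ^ N) x).fst (m + N)‖ ^ 2 ≤
        ∑' n, om n * ‖co ((T ^ N) x).fst n‖ ^ 2 :=
      (k8 ((T ^ N) x).fst).le_tsum (m + N) fun n _ =>
        mul_nonneg (om_pos n).le (sq_nonneg _)
    rw [(co_pow hA hC x N (m + N)).2] at h6
    have e4 : m + (N : ℤ) - N = m := by ring
    rw [e4] at h6
    have h7 : om (m + N) * ‖co x.fst m + (sN m N : ℂ) * co x.snd m‖ ^ 2 ≤ C * om N := by
      have := sq_nonneg ‖((T ^ N) x).snd‖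
      linarith
    have h8 : om (m + N) / om N * ‖co x.fst m + (sN m N : ℂ) * co x.snd m‖ ^ 2 ≤ C := by
      rw [div_mul_eq_mul_div, div_le_iff₀ hoN]
      exact h7
    linarith

end Pool.Agent.W585.WH.GRO
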